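import Pool.Agent.W769.Cons.Wrap
import Pool.Agent.R462.HP.Sharp

set_option autoImplicit false

/-!
# Dimensions of the slices of a conservative family

For `a = ∇g + b` on an open set, `g` differentiable at every point and `b` locally Lipschitz, the
graph of `a` contains a large piece `{(Q y, a (Q y)) : y ∈ Y}` with `a (Q y) + t Q y = y + (t - τ) ν y`,
`ν` Lipschitz.  The principal minors of the derivatives of these maps vanish if the image is small.
-/

open MeasureTheory Set Metric Filter Topology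
open scoped NNReal ENNReal Polynomial MeasureTheory

namespace Pool.Agent.K3h53.Cons

open Pool.Agent.R462.HP (E lim cr null_lim)

theorem core2 {n : ℕ} {U : Set (E n)} (hU : IsOpen U) (hne : U.Nonempty) {g : E n → ℝ}
    (hg : ∀ p ∈ U, DifferentiableAt ℝ g p) {b : E n → E n} (hb : LocallyLipschitzOn U b) :
    ∃ (Y : Set (E n)) (Q ν : E n → E n) (k : ℝ≥0) (τ : ℝ), IsCompact Y ∧ volume Y ≠ 0 ∧
      MapsTo Q Y U ∧ LipschitzWith k ν ∧
      ∀ y ∈ Y, ∀ t : ℝ, gradient g (Q y) + b (Q y) + t • Q y = y + (t - τ) • ν y := by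
  classical
  obtain ⟨x₀, hx₀⟩ := hne
  obtain ⟨ρ, hρ, hsub, Lb, Lv, hLb, hLv, c, hc, hmono⟩ :=
    Pool.Agent.W769.Cons.exists_ball hU hx₀ hb (Pool.Agent.W769.Cons.locallyLipschitzOn_id U)
      (Pool.Agent.W769.Cons.locStrMono_id U)
  obtain ⟨Z, Q, β, ν, kβ, kν, τ, hZc, hZ, hQ, hβ, hβ1, hν, heq⟩ :=
    Pool.Agent.W769.Cons.core volume hρ (fun x hx => hg x (hsub hx)) hLb hLv hc hmono
  have hψc : Continuous (fun z => z + β z) := continuous_id.add hβ.continuous
  have hψ : ∀ z z' : E n, (1 - (kβ : ℝ)) * ‖z - z'‖ ≤ ‖(z + β z) - (z' + β z')‖ := by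
    intro z z'
    have h1 := hβ.dist_le_mul z z'
    rw [dist_eq_norm, dist_eq_norm] at h1
    have h2 : z - z' = ((z + β z) - (z' + β z')) - (β z - β z') := by abel
    have h3 : ‖z - z'‖ ≤ ‖(z + β z) - (z' + β z')‖ + ‖β z - β z'‖ := by
      conv_lhs => rw [h2]
      exact norm_sub_le _ _
    linarith
  have hk1 : (0 : ℝ) < 1 - (kβ : ℝ) := by
    have : (kβ : ℝ) < 1 := by exact_mod_cast hβ1
    linarith
  set Y : Set (E n) := (fun z => z + β z) '' Z with hY
  have hinv : ∀ y : E n, ∃ z : E n, y ∈ Y → z ∈ Z ∧ z + β z = y := by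
    intro y
    by_cases hy : y ∈ Y
    · obtain ⟨z, hz, hzy⟩ := hy
      exact ⟨z, fun _ => ⟨hz, hzy⟩⟩
    · exact ⟨0, fun h => absurd h hy⟩
  choose I hI using hinv
  have hIlip : LipschitzOnWith (Real.toNNReal (1 - (kβ : ℝ))⁻¹) I Y := by
    refine LipschitzOnWith.of_dist_le_mul fun y hy y' hy' => ?_
    rw [Real.coe_toNNReal _ (by positivity), dist_eq_norm, dist_eq_norm]
    have h1 := hψ (I y) (I y')
    rw [(hI y hy).2, (hI y' hy').2] at h1
    rw [← div_eq_inv_mul, le_div_iff₀ hk1, mul_comm]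
    exact h1
  have hYpos : volume Y ≠ 0 := by
    intro h0
    have h1 := Pool.Agent.W769.Cons.null_lipschitz_image volume hIlip h0
    apply hZ
    refine measure_mono_null ?_ h1
    intro z hz
    have hy : z + β z ∈ Y := ⟨z, hz, rfl⟩
    refine ⟨z + β z, hy, ?_⟩
    have h2 := hψ (I (z + β z)) z
    rw [(hI _ hy).2, sub_self, norm_zero] at h2
    have h3 : ‖I (z + β z) - z‖ ≤ 0 := by
      by_contra hcon
      rw [not_le] at hcon
      nlinarith
    exact sub_eq_zero.1 (norm_le_zero_iff.1 h3)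
  have hνI : LipschitzOnWith (kν * Real.toNNReal (1 - (kβ : ℝ))⁻¹) (fun y => ν (I y)) Y :=
    hν.comp_lipschitzOnWith hIlip
  obtain ⟨ν', hν', hνe⟩ := hνI.extend_finite_dimension
  refine ⟨Y, fun y => Q (I y), ν', _, τ, hZc.image hψc, hYpos, fun y hy => hsub (hQ (hI y hy).1),
    hν', fun y hy t => ?_⟩
  have h1 := heq (I y) (hI y hy).1 t
  rw [h1, (hI y hy).2]
  have h2 : ν' y = ν (I y) := (hνe hy).symm
  rw [h2]

theorem minors_vanish {n : ℕ} {Y : Set (E n)} (hYc : IsCompact Y) (hY : volume Y ≠ 0)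
    {ν : E n → E n} {k : ℝ≥0} (hν : LipschitzWith k ν) (τ : ℝ) (T : Finset ℝ)
    (B : ℝ → Set (E n)) (d : ℝ → ℕ) (hB : ∀ t ∈ T, ∀ y ∈ Y, y + (t - τ) • ν y ∈ B t)
    (hB0 : ∀ t ∈ T, μH[(d t : ℝ) + 1] (B t) = 0) :
    ∃ A : Matrix (Fin n) (Fin n) ℝ, ∀ t ∈ T, ∀ S : Finset (Fin n), d t < S.card →
      (((t - τ) • A + 1).submatrix (Subtype.val : S → Fin n)
        (Subtype.val : S → Fin n)).det = 0 := by
  classical
  set f : (Fin n → ℝ) → (Fin n → ℝ) := cr ν with hf
  have hlip : ∃ K : ℝ≥0, LipschitzWith K f := by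
    have h1 := (PiLp.lipschitzWith_ofLp 2 (fun _ : Fin n => ℝ)).comp
      (hν.comp (PiLp.lipschitzWith_toLp 2 (fun _ : Fin n => ℝ)))
    exact ⟨_, h1⟩
  obtain ⟨K, hK⟩ := hlip
  set Q : Set (Fin n → ℝ) := {v | (WithLp.toLp 2 v : E n) ∈ Y} with hQ
  have hQpos : volume Q ≠ 0 := by
    have := (PiLp.volume_preserving_toLp (Fin n)).measure_preimage
      hYc.isClosed.measurableSet.nullMeasurableSet
    rw [← this] at hY
    exact hY
  set D : Set (Fin n → ℝ) := {v | DifferentiableAt ℝ f v} with hD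
  have hDae : volume Dᶜ = 0 := by
    have h1 := hK.ae_differentiableAt (μ := (volume : Measure (Fin n → ℝ)))
    exact h1
  set M : ℝ → (Fin n → ℝ) → Matrix (Fin n) (Fin n) ℝ := fun t v =>
    (t - τ) • LinearMap.toMatrix' (fderiv ℝ f v : (Fin n → ℝ) →ₗ[ℝ] (Fin n → ℝ)) + 1 with hM
  set N : ℝ → Finset (Fin n) → Set (Fin n → ℝ) := fun t S =>
    {v ∈ Q ∩ D | ((M t v).submatrix (Subtype.val : S → Fin n)
      (Subtype.val : S → Fin n)).det ≠ 0} with hN
  have key : ∀ t ∈ T, ∀ S : Finset (Fin n), d t < S.card → volume (N t S) = 0 := by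
    intro t ht S hS
    set G : (Fin n → ℝ) → (Fin n → ℝ) := lim (cr (fun x => (t - τ) • ν x)) 1 S with hG
    set P : (Fin n → ℝ) → ((Fin n → ℝ) →L[ℝ] (Fin n → ℝ)) := fun v =>
      ContinuousLinearMap.pi fun i =>
        if i ∈ S then (t - τ) • ((ContinuousLinearMap.proj (R := ℝ) (φ := fun _ : Fin n => ℝ) i).comp
          (fderiv ℝ f v)) + ContinuousLinearMap.proj (R := ℝ) (φ := fun _ : Fin n => ℝ) i
        else ContinuousLinearMap.proj (R := ℝ) (φ := fun _ : Fin n => ℝ) i with hP
    have hder : ∀ v ∈ D, HasFDerivAt G (P v) v := by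
      intro v hv
      rw [hasFDerivAt_pi']
      intro i
      have hcomp : (ContinuousLinearMap.proj (R := ℝ) (φ := fun _ : Fin n => ℝ) i).comp (P v) =
          if i ∈ S then (t - τ) • ((ContinuousLinearMap.proj (R := ℝ)
            (φ := fun _ : Fin n => ℝ) i).comp (fderiv ℝ f v)) +
            ContinuousLinearMap.proj (R := ℝ) (φ := fun _ : Fin n => ℝ) i
          else ContinuousLinearMap.proj (R := ℝ) (φ := fun _ : Fin n => ℝ) i := by
        ext w
        simp [hP]
      rw [hcomp]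
      have hi : HasFDerivAt (fun v : Fin n → ℝ => v i)
          (ContinuousLinearMap.proj (R := ℝ) (φ := fun _ : Fin n => ℝ) i) v :=
        (ContinuousLinearMap.proj (R := ℝ) (φ := fun _ : Fin n => ℝ) i).hasFDerivAt
      have hfi : HasFDerivAt (fun v : Fin n → ℝ => f v i)
          ((ContinuousLinearMap.proj (R := ℝ) (φ := fun _ : Fin n => ℝ) i).comp (fderiv ℝ f v)) v :=
        (ContinuousLinearMap.proj (R := ℝ) (φ := fun _ : Fin n => ℝ) i).hasFDerivAt.comp v
          (DifferentiableAt.hasFDerivAt hv)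
      by_cases h : i ∈ S
      · rw [if_pos h]
        have h1 := (hfi.const_mul (t - τ)).add hi
        refine h1.congr_of_eventuallyEq (Eventually.of_forall fun w => ?_)
        simp only [hG, Pool.Agent.R462.HP.lim, if_pos h, hf, cr]
        simp
      · rw [if_neg h]
        refine hi.congr_of_eventuallyEq (Eventually.of_forall fun w => ?_)
        simp only [hG, Pool.Agent.R462.HP.lim, if_neg h]
    have hdet : ∀ v, (P v).det = ((M t v).submatrix (Subtype.val : S → Fin n)
      (Subtype.val : S → Fin n)).det := by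
      intro v
      rw [ContinuousLinearMap.det, ← LinearMap.det_toMatrix', ← Matrix.det_piecewise_one_eq_submatrix_det]
      congr 1
      ext i j
      rw [LinearMap.toMatrix'_apply, Matrix.of_apply]
      simp only [hP, hM]
      by_cases hi : i ∈ S
      · simp [hi, Finset.piecewise, Matrix.row, Matrix.one_apply, LinearMap.toMatrix'_apply,
          Pi.single_apply]
      · simp [hi, Finset.piecewise, Matrix.row, Matrix.one_apply, Pi.single_apply]
    refine Pool.Agent.W769.Cons.null_of_null_image volume (f := G) (f' := P) ?_ ?_ ?_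
    · intro v hv
      exact (hder v hv.1.2).hasFDerivWithinAt
    · have h1 : volume (G '' Q) = 0 := by
        refine null_lim (B := B t) ?_ ?_
        · have h3 : (d t : ℝ) + 1 ≤ S.card := by
            have : d t + 1 ≤ S.card := hS
            exact_mod_cast this
          exact le_antisymm ((Measure.hausdorffMeasure_mono h3 (B t)).trans (hB0 t ht).le) zero_le
        · intro v hv
          have := hB t ht _ hv
          rw [one_smul, add_comm]
          exact this
      exact measure_mono_null (image_mono fun v hv => hv.1.1) h1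
    · intro v hv
      rw [hdet v]
      exact hv.2
  have hunion : volume (Dᶜ ∪ ⋃ t ∈ T, ⋃ S : Finset (Fin n), ⋃ _ : d t < S.card, N t S) = 0 := by
    refine measure_union_null hDae ?_
    refine (measure_biUnion_null_iff T.countable_toSet).2 fun t ht => ?_
    refine measure_iUnion_null fun S => measure_iUnion_null fun hS => key t ht S hS
  have hex : ∃ v ∈ Q, v ∉ Dᶜ ∪ ⋃ t ∈ T, ⋃ S : Finset (Fin n), ⋃ _ : d t < S.card, N t S := by
    by_contra h
    push Not at h
    exact hQpos (measure_mono_null h hunion)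
  obtain ⟨v, hv, hvn⟩ := hex
  simp only [mem_union, mem_compl_iff, not_or, not_not, mem_iUnion, not_exists] at hvn
  refine ⟨LinearMap.toMatrix' (fderiv ℝ f v : (Fin n → ℝ) →ₗ[ℝ] (Fin n → ℝ)), fun t ht S hS => ?_⟩
  by_contra hcon
  exact hvn.2 t ht S hS ⟨⟨hv, hvn.1⟩, hcon⟩

theorem sum_le_of_minors {n : ℕ} (A : Matrix (Fin n) (Fin n) ℝ) (τ : ℝ) (T : Finset ℝ) (d : ℝ → ℕ)
    (h : ∀ t ∈ T, ∀ S : Finset (Fin n), d t < S.card →
      (((t - τ) • A + 1).submatrix (Subtype.val : S → Fin n)
        (Subtype.val : S → Fin n)).det = 0) :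
    ∑ t ∈ T, (n - d t) ≤ n := by
  classical
  by_contra hcon
  rw [not_le] at hcon
  set T' := T.erase τ with hT'
  have hsum : ∑ t ∈ T', (n - d t) = ∑ t ∈ T, (n - d t) := by
    by_cases hτ : τ ∈ T
    · rw [hT', ← Finset.add_sum_erase T _ hτ]
      have h1 : n - d τ = 0 := by
        by_contra h0
        have h2 := h τ hτ Finset.univ (by
          rw [Finset.card_univ, Fintype.card_fin]
          omega)
        rw [sub_self, zero_smul, zero_add] at h2
        have h3 : (1 : Matrix (Fin n) (Fin n) ℝ).submatrix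
            (Subtype.val : ↥(Finset.univ : Finset (Fin n)) → Fin n)
            (Subtype.val : ↥(Finset.univ : Finset (Fin n)) → Fin n) = 1 :=
          Matrix.submatrix_one _ Subtype.val_injective
        rw [h3, Matrix.det_one] at h2
        exact one_ne_zero h2
      rw [h1, zero_add]
    · rw [hT', Finset.erase_eq_of_notMem hτ]
  rw [← hsum] at hcon
  have hne : ∀ x : T', (x : ℝ) - τ ≠ 0 := by
    intro x
    have := Finset.ne_of_mem_erase x.2
    exact sub_ne_zero.2 this
  have hsum' : n < ∑ i : Fin T'.card, (n - d (T'.equivFin.symm i : ℝ)) := by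
    have h1 : ∑ i : Fin T'.card, (n - d (T'.equivFin.symm i : ℝ)) = ∑ x : T', (n - d (x : ℝ)) :=
      Equiv.sum_comp T'.equivFin.symm (fun x : T' => n - d (x : ℝ))
    rw [h1, Finset.sum_coe_sort T' (fun t => n - d t)]
    exact hcon
  have hp := Pool.Agent.R462.HP.eq_zero_of_taylor (n := n)
    (fun i : Fin T'.card => ((T'.equivFin.symm i : ℝ) - τ)⁻¹) (by
      intro i j hij
      have h1 := inv_injective hij
      have h2 : (T'.equivFin.symm i : ℝ) = T'.equivFin.symm j := by linarith
      exact T'.equivFin.symm.injective (Subtype.ext h2))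
    (fun i => n - d (T'.equivFin.symm i : ℝ)) hsum' ((-A).charpoly) (by
      have h1 : (-A).charpoly.degree = (n : WithBot ℕ) := by
        rw [Matrix.charpoly_degree_eq_dim, Fintype.card_fin]
      rw [h1]
      exact_mod_cast Nat.lt_succ_self n) (by
      intro i j hj
      have hj' : j < n - d (T'.equivFin.symm i : ℝ) := hj
      set t : T' := T'.equivFin.symm i with ht
      rw [Pool.Agent.R462.HP.coeff_taylor _ _ (by omega)]
      refine Finset.sum_eq_zero fun S hS => ?_
      have hSc := (Finset.mem_powersetCard.1 hS).2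
      have h1 := h t (Finset.mem_of_mem_erase t.2) S (by omega)
      have h2 : ((t : ℝ) - τ) • A + 1 =
          ((t : ℝ) - τ) • (A + ((t : ℝ) - τ)⁻¹ • (1 : Matrix (Fin n) (Fin n) ℝ)) := by
        rw [smul_add, smul_smul, mul_inv_cancel₀ (hne t), one_smul]
      rw [h2, Matrix.submatrix_smul, Pi.smul_apply, Pi.smul_apply, Matrix.det_smul] at h1
      rcases mul_eq_zero.1 h1 with h3 | h3
      · exact absurd h3 (pow_ne_zero _ (hne t))
      · exact h3)
  exact (Matrix.charpoly_monic (-A)).ne_zero hp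

/-- **The dimensions of the slices of a conservative family.** -/
theorem slices_dim {n : ℕ} {U : Set (E n)} (hU : IsOpen U) (hne : U.Nonempty) {g : E n → ℝ}
    (hg : ∀ p ∈ U, DifferentiableAt ℝ g p) {b : E n → E n} (hb : LocallyLipschitzOn U b)
    (T : Finset ℝ) (B : ℝ → Set (E n)) (d : ℝ → ℕ)
    (hB : ∀ t ∈ T, ∀ r ∈ U, gradient g r + b r + t • r ∈ B t)
    (hB0 : ∀ t ∈ T, μH[(d t : ℝ) + 1] (B t) = 0) :
    ∑ t ∈ T, (n - d t) ≤ n := by
  obtain ⟨Y, Q, ν, k, τ, hYc, hY, hQ, hν, heq⟩ := core2 hU hne hg hb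
  obtain ⟨A, hA⟩ := minors_vanish hYc hY hν τ T B d (fun t ht y hy => by
    rw [← heq y hy t]
    exact hB t ht _ (hQ hy)) hB0
  exact sum_le_of_minors A τ T d hA

end Pool.Agent.K3h53.Cons
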